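import Pool.Agent.Helper17.FP.Stmts

set_option autoImplicit false

/-!
Module BIVb: a dyadic block of the cofactors `r`.
-/

open Finset

namespace Pool.Agent.Helper17.FP

open Pool.Agent.Helper17.SO Pool.Agent.Helper17.SV

/-! ### Parameters -/

theorem bivb_ev (A c : ℝ) (hc : 0 < c) : ∃ J₀ : ℝ, 4 ≤ J₀ ∧ ∀ J : ℝ, J₀ ≤ J →
    A + J ^ 3 ≤ J ^ 4 ∧ Real.log 2 ≤ c * J ^ (9 / 10 : ℝ) ∧
    4 * Real.log J ≤ c * J ^ (9 / 10 : ℝ) ∧ 2 * J ^ 4 ≤ Real.exp (19 / 20 * J) ∧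
    Real.log J ≤ J ^ (2 / 15 : ℝ) := by
  have h1 : ∀ᶠ J : ℝ in Filter.atTop, A + J ^ 3 ≤ J ^ 4 := by
    filter_upwards [Filter.eventually_ge_atTop (max 2 A)] with J hJ
    have h2 : 2 ≤ J := (le_max_left _ _).trans hJ
    have h3 : A ≤ J := (le_max_right _ _).trans hJ
    have h4 : J ≤ J ^ 3 := by nlinarith [mul_nonneg (show (0 : ℝ) ≤ J by linarith) (show (0 : ℝ) ≤ J ^ 2 - 1 by nlinarith)]
    have h5 : 2 * J ^ 3 ≤ J ^ 4 := by
      have : 0 ≤ J ^ 3 := by positivity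
      nlinarith
    linarith
  have h2 : ∀ᶠ J : ℝ in Filter.atTop, Real.log 2 ≤ c * J ^ (9 / 10 : ℝ) := by
    have h3 : Filter.Tendsto (fun J : ℝ => c * J ^ (9 / 10 : ℝ)) Filter.atTop Filter.atTop :=
      (tendsto_rpow_atTop (by norm_num)).const_mul_atTop hc
    exact h3.eventually_ge_atTop _
  have h3 : ∀ᶠ J : ℝ in Filter.atTop, 4 * Real.log J ≤ c * J ^ (9 / 10 : ℝ) := by
    have h4 := (isLittleO_log_rpow_atTop (show (0 : ℝ) < 9 / 10 by norm_num)).bound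
      (show (0 : ℝ) < c / 4 by positivity)
    filter_upwards [h4, Filter.eventually_ge_atTop 1] with J hJ hJ1
    have h5 : 0 ≤ J ^ (9 / 10 : ℝ) := Real.rpow_nonneg (by linarith) _
    rw [Real.norm_eq_abs, Real.norm_eq_abs, abs_of_nonneg h5] at hJ
    have h6 := le_abs_self (Real.log J)
    nlinarith
  have h4 : ∀ᶠ J : ℝ in Filter.atTop, 2 * J ^ 4 ≤ Real.exp (19 / 20 * J) := by
    have h5 := (isLittleO_pow_exp_pos_mul_atTop (k := 4) (show (0 : ℝ) < 19 / 20 by norm_num)).bound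
      (show (0 : ℝ) < 1 / 2 by norm_num)
    filter_upwards [h5] with J hJ
    rw [Real.norm_eq_abs, Real.norm_eq_abs, Real.abs_exp] at hJ
    have h6 := le_abs_self (J ^ 4)
    linarith
  have h5 : ∀ᶠ J : ℝ in Filter.atTop, Real.log J ≤ J ^ (2 / 15 : ℝ) := by
    have h4 := (isLittleO_log_rpow_atTop (show (0 : ℝ) < 2 / 15 by norm_num)).bound
      (show (0 : ℝ) < 1 by positivity)
    filter_upwards [h4, Filter.eventually_ge_atTop 1] with J hJ hJ1
    have h5 : 0 ≤ J ^ (2 / 15 : ℝ) := Real.rpow_nonneg (by linarith) _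
    rw [Real.norm_eq_abs, Real.norm_eq_abs, abs_of_nonneg h5] at hJ
    have h6 := le_abs_self (Real.log J)
    linarith
  obtain ⟨J₁, hJ₁⟩ := Filter.eventually_atTop.mp (h1.and (h2.and (h3.and (h4.and h5))))
  refine ⟨max 4 J₁, le_max_left _ _, fun J hJ => ?_⟩
  exact hJ₁ J ((le_max_right _ _).trans hJ)

theorem bivb_floor (t : ℝ) (ht : Real.log 2 ≤ t) :
    1 ≤ ⌊Real.exp t⌋₊ ∧ t - Real.log 2 ≤ Real.log (⌊Real.exp t⌋₊ : ℝ) ∧
      ((⌊Real.exp t⌋₊ : ℕ) : ℝ) ≤ Real.exp t := by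
  have h0 : (2 : ℝ) ≤ Real.exp t := by
    rw [← Real.log_le_iff_le_exp (by norm_num)]
    exact ht
  have h1 : Real.exp t / 2 ≤ (⌊Real.exp t⌋₊ : ℝ) := by
    have := Nat.lt_floor_add_one (Real.exp t)
    linarith
  refine ⟨?_, ?_, Nat.floor_le (Real.exp_pos t).le⟩
  · rw [Nat.one_le_floor_iff]
    linarith
  · have h2 : t - Real.log 2 = Real.log (Real.exp t / 2) := by
      rw [Real.log_div (Real.exp_pos t).ne' (by norm_num), Real.log_exp]
    rw [h2]
    exact Real.log_le_log (by positivity) h1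

theorem bivb_exp_sq (t : ℝ) (ht : 0 ≤ t) : t ^ 2 / 2 ≤ Real.exp t := by
  have := Real.quadratic_le_exp_of_nonneg ht
  linarith

theorem bivb_par (lam b : ℕ) (hb : 1 ≤ b) : ∃ J₀ K : ℝ, 4 ≤ J₀ ∧ ∀ (x R w : ℕ) (J L : ℝ),
    L = Real.log x → J = Real.log ((x : ℝ) / R) → J₀ ≤ J → 1 ≤ x → 1 ≤ R →
    (w : ℝ) ≤ L ^ (1 / 40 : ℝ) → Real.exp (L ^ (9 / 10 : ℝ)) / 2 ≤ R →
    (R : ℝ) ≤ x / Real.sqrt L →
    2 * R ≤ x ∧ ∃ z1 zs zb : ℕ, 8 * lam + 7 ≤ z1 ∧ z1 ≤ zs ∧ zs ≤ zb ∧ zb ≤ x ∧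
      (∀ r : ℕ, r ≤ 2 * R → zb ^ b * r ≤ x ∧ w * z1 * r ≤ x) ∧
      1 / (z1 : ℝ) ≤ J ^ (-(5 / 4) : ℝ) ∧
      (zs : ℝ) ^ 2 / Real.sqrt R ≤ 32 * J ^ (-(5 / 4) : ℝ) ∧
      -(1 / 2) * LL z1 zs - LL z1 zb ≤ K - 5 / 4 * Real.log J := by
  have hb0 : (0 : ℝ) < b := by exact_mod_cast hb
  set c : ℝ := min (1 / (8 * b)) (1 / 32) with hcdef
  have hc : 0 < c := by
    rw [hcdef]
    positivity
  have hc1 : c ≤ 1 / (8 * b) := min_le_left _ _
  have hc2 : c ≤ 1 / 32 := min_le_right _ _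
  obtain ⟨J₀, hJ₀, hev⟩ := bivb_ev (8 * lam + 8) c hc
  refine ⟨J₀, 3 / 2 * Real.log 4 - 3 / 2 * Real.log c, hJ₀, ?_⟩
  intro x R w J L hL hJ hJJ hx hR hw hRL hRU
  obtain ⟨e1, e2, e3, e4, e5⟩ := hev J hJJ
  have hJ4 : 4 ≤ J := hJ₀.trans hJJ
  have hJp : 0 < J := by linarith
  have hx0 : (0 : ℝ) < x := by exact_mod_cast hx
  have hR0 : (0 : ℝ) < R := by exact_mod_cast hR
  have hJL : J ≤ L := by
    rw [hJ, hL]
    refine Real.log_le_log (by positivity) ?_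
    exact div_le_self hx0.le (by exact_mod_cast hR)
  have hL4 : 4 ≤ L := hJ4.trans hJL
  have hLp : 0 < L := by linarith
  have hexpJ : Real.exp J = (x : ℝ) / R := by
    rw [hJ, Real.exp_log (by positivity)]
  have hRx : (R : ℝ) = x * Real.exp (-J) := by
    rw [Real.exp_neg, hexpJ]
    field_simp
  have hsq : 2 ≤ Real.sqrt L := by
    rw [show (2 : ℝ) = Real.sqrt (2 ^ 2) by rw [Real.sqrt_sq (by norm_num)]]
    exact Real.sqrt_le_sqrt (by linarith)
  have hsqp : 0 < Real.sqrt L := by linarith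
  have hlogL : Real.log L ≤ 2 * J := by
    have h1 : Real.sqrt L ≤ (x : ℝ) / R := by
      rw [le_div_iff₀ hsqp] at hRU
      rw [le_div_iff₀ hR0]
      linarith
    have h2 := Real.log_le_log hsqp h1
    rw [← hJ, Real.log_sqrt hLp.le] at h2
    linarith
  have hJ9 : J ^ (9 / 10 : ℝ) ≤ J := by
    calc J ^ (9 / 10 : ℝ) ≤ J ^ (1 : ℝ) :=
          Real.rpow_le_rpow_of_exponent_le (by linarith) (by norm_num)
      _ = J := Real.rpow_one J
  have hL9 : J ^ (9 / 10 : ℝ) ≤ L ^ (9 / 10 : ℝ) := Real.rpow_le_rpow hJp.le hJL (by norm_num)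
  have hJ9p : 0 < J ^ (9 / 10 : ℝ) := Real.rpow_pos_of_pos hJp _
  have hlogJ : 0 < Real.log J := Real.log_pos (by linarith)
  have hb8 : 2 * c * J ≤ J / (4 * b) := by
    have : J / (4 * b) = 2 * (1 / (8 * b)) * J := by
      field_simp
      ring
    rw [this]
    have := mul_le_mul_of_nonneg_right hc1 hJp.le
    linarith
  -- the parameters
  set tb : ℝ := J / (4 * b) with htb
  set ts : ℝ := min (J / (4 * b)) (L ^ (9 / 10 : ℝ) / 16) with hts
  have hcJ : c * J ^ (9 / 10 : ℝ) ≤ c * J := mul_le_mul_of_nonneg_left hJ9 hc.le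
  have htb1 : 2 * (c * J) ≤ tb := by linarith
  have hts1 : 2 * (c * J ^ (9 / 10 : ℝ)) ≤ ts := by
    rw [hts]
    refine le_min ?_ ?_
    · linarith
    · have := mul_le_mul hc2 hL9 hJ9p.le (by norm_num)
      linarith
  obtain ⟨fb1, fb2, fb3⟩ := bivb_floor tb (by linarith)
  obtain ⟨fs1, fs2, fs3⟩ := bivb_floor ts (by linarith)
  set zb : ℕ := ⌊Real.exp tb⌋₊ with hzb
  set zs : ℕ := ⌊Real.exp ts⌋₊ with hzs
  set z1 : ℕ := ⌈J ^ 3⌉₊ + (8 * lam + 7) with hz1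
  have hz1lo : J ^ 3 ≤ (z1 : ℝ) := by
    rw [hz1]
    push_cast
    have := Nat.le_ceil (J ^ 3)
    have h8 : (0 : ℝ) ≤ 8 * lam + 7 := by positivity
    linarith
  have hz1hi : (z1 : ℝ) ≤ J ^ 4 := by
    rw [hz1]
    push_cast
    have := Nat.ceil_lt_add_one (show (0 : ℝ) ≤ J ^ 3 by positivity)
    linarith
  have hz1two : 7 ≤ z1 := by omega
  have hz1p : (0 : ℝ) < z1 := by
    have : 0 < z1 := by omega
    exact_mod_cast this
  have hlogz1 : Real.log z1 ≤ 4 * Real.log J := by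
    have := Real.log_le_log hz1p hz1hi
    rw [Real.log_pow] at this
    exact_mod_cast this
  have hzsp : (0 : ℝ) < zs := by exact_mod_cast fs1
  have hzbp : (0 : ℝ) < zb := by exact_mod_cast fb1
  have hlogzs : c * J ^ (9 / 10 : ℝ) ≤ Real.log zs := by linarith
  have hlogzb : c * J ≤ Real.log zb := by linarith
  have hz1zs : z1 ≤ zs := by
    have h1 : Real.log z1 ≤ Real.log zs := by linarith
    have h2 := (Real.log_le_log_iff hz1p hzsp).mp h1
    exact_mod_cast h2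
  have hzszb : zs ≤ zb := by
    rw [hzs, hzb]
    refine Nat.floor_le_floor (Real.exp_le_exp.mpr ?_)
    rw [hts]
    exact min_le_left _ _
  have htbJ : tb ≤ J := by
    rw [htb]
    refine div_le_self hJp.le ?_
    have : (1 : ℝ) ≤ b := by exact_mod_cast hb
    linarith
  have hzbx : zb ≤ x := by
    have h1 : (zb : ℝ) ≤ x := by
      calc (zb : ℝ) ≤ Real.exp tb := fb3
        _ ≤ Real.exp L := Real.exp_le_exp.mpr (htbJ.trans hJL)
        _ = x := by rw [hL, Real.exp_log hx0]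
    exact_mod_cast h1
  refine ⟨?_, z1, zs, zb, by omega, hz1zs, hzszb, hzbx, ?_, ?_, ?_, ?_⟩
  · have h1 : (R : ℝ) * 2 ≤ x := by
      rw [le_div_iff₀ hsqp] at hRU
      calc (R : ℝ) * 2 ≤ R * Real.sqrt L := mul_le_mul_of_nonneg_left hsq hR0.le
        _ ≤ x := hRU
    have h2 : R * 2 ≤ x := by exact_mod_cast h1
    omega
  · intro r hr
    have hrr : (r : ℝ) ≤ 2 * (x * Real.exp (-J)) := by
      rw [← hRx]
      exact_mod_cast hr
    have hr0 : (0 : ℝ) ≤ r := Nat.cast_nonneg r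
    constructor
    · have h1 : ((zb ^ b * r : ℕ) : ℝ) ≤ x := by
        push_cast
        have h2 : (zb : ℝ) ^ b ≤ Real.exp (J / 4) := by
          calc (zb : ℝ) ^ b ≤ (Real.exp tb) ^ b := pow_le_pow_left₀ hzbp.le fb3 b
            _ = Real.exp (J / 4) := by
              rw [← Real.exp_nat_mul]
              congr 1
              rw [htb]
              field_simp
        calc (zb : ℝ) ^ b * r ≤ Real.exp (J / 4) * (2 * (x * Real.exp (-J))) :=
              mul_le_mul h2 hrr hr0 (Real.exp_pos _).le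
          _ = x * (2 * Real.exp (J / 4 + -J)) := by
              rw [Real.exp_add]
              ring
          _ ≤ x * 1 := by
              refine mul_le_mul_of_nonneg_left ?_ hx0.le
              have h3 : Real.exp (J / 4 + -J) ≤ Real.exp (-(3 : ℝ)) :=
                Real.exp_le_exp.mpr (by linarith)
              have h4 : Real.exp (-(3 : ℝ)) ≤ 1 / 2 := by
                rw [Real.exp_neg]
                have h5 : (2 : ℝ) ≤ Real.exp 3 := by
                  have := Real.add_one_le_exp (3 : ℝ)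
                  linarith
                rw [inv_eq_one_div]
                exact one_div_le_one_div_of_le (by norm_num) h5
              linarith
          _ = x := mul_one _
      exact_mod_cast h1
    · have h1 : ((w * z1 * r : ℕ) : ℝ) ≤ x := by
        push_cast
        have h2 : (w : ℝ) ≤ Real.exp (J / 20) := by
          refine hw.trans ?_
          rw [Real.rpow_def_of_pos hLp]
          refine Real.exp_le_exp.mpr ?_
          linarith
        calc (w : ℝ) * z1 * r ≤ (Real.exp (J / 20) * J ^ 4) * (2 * (x * Real.exp (-J))) := by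
              refine mul_le_mul (mul_le_mul h2 hz1hi hz1p.le (Real.exp_pos _).le) hrr hr0 ?_
              positivity
          _ = x * ((2 * J ^ 4) * Real.exp (J / 20 + -J)) := by
              rw [Real.exp_add]
              ring
          _ ≤ x * (Real.exp (19 / 20 * J) * Real.exp (J / 20 + -J)) := by
              refine mul_le_mul_of_nonneg_left ?_ hx0.le
              exact mul_le_mul_of_nonneg_right e4 (Real.exp_pos _).le
          _ = x := by
              rw [← Real.exp_add]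
              have : 19 / 20 * J + (J / 20 + -J) = 0 := by ring
              rw [this, Real.exp_zero, mul_one]
      exact_mod_cast h1
  · have h1 : J ^ (5 / 4 : ℝ) ≤ J ^ 3 := by
      rw [← Real.rpow_natCast]
      refine Real.rpow_le_rpow_of_exponent_le (by linarith) ?_
      norm_num
    rw [Real.rpow_neg hJp.le, ← one_div]
    exact one_div_le_one_div_of_le (Real.rpow_pos_of_pos hJp _) (h1.trans hz1lo)
  · -- zs ^ 2 / sqrt R
    set t : ℝ := 3 / 8 * L ^ (9 / 10 : ℝ) with ht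
    have ht0 : 0 < t := by
      rw [ht]
      have := hJ9p.trans_le hL9
      linarith
    have h1 : (zs : ℝ) ^ 2 ≤ Real.exp (L ^ (9 / 10 : ℝ) / 8) := by
      calc (zs : ℝ) ^ 2 ≤ (Real.exp ts) ^ 2 := pow_le_pow_left₀ hzsp.le fs3 2
        _ = Real.exp (2 * ts) := by
          rw [← Real.exp_nat_mul]
          norm_num
        _ ≤ Real.exp (L ^ (9 / 10 : ℝ) / 8) := by
          refine Real.exp_le_exp.mpr ?_
          have : ts ≤ L ^ (9 / 10 : ℝ) / 16 := by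
            rw [hts]
            exact min_le_right _ _
          linarith
    have h2 : Real.exp (L ^ (9 / 10 : ℝ) / 2) / 2 ≤ Real.sqrt R := by
      refine Real.le_sqrt_of_sq_le ?_
      refine le_trans ?_ hRL
      rw [div_pow, ← Real.exp_nat_mul]
      have h3 : ((2 : ℕ) : ℝ) * (L ^ (9 / 10 : ℝ) / 2) = L ^ (9 / 10 : ℝ) := by
        push_cast
        ring
      rw [h3]
      have := Real.exp_pos (L ^ (9 / 10 : ℝ))
      linarith
    have h3 : (zs : ℝ) ^ 2 / Real.sqrt R ≤ 2 / Real.exp t := by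
      have h4 : (zs : ℝ) ^ 2 / Real.sqrt R ≤
          Real.exp (L ^ (9 / 10 : ℝ) / 8) / (Real.exp (L ^ (9 / 10 : ℝ) / 2) / 2) :=
        div_le_div₀ (Real.exp_pos _).le h1 (by positivity) h2
      refine h4.trans (le_of_eq ?_)
      have h5 : Real.exp (L ^ (9 / 10 : ℝ) / 2) = Real.exp (L ^ (9 / 10 : ℝ) / 8) * Real.exp t := by
        rw [← Real.exp_add, ht]
        congr 1
        ring
      rw [h5]
      field_simp
    refine h3.trans ?_
    have h6 : 2 / Real.exp t ≤ 2 / (t ^ 2 / 2) :=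
      div_le_div_of_nonneg_left (by norm_num) (by positivity) (bivb_exp_sq t ht0.le)
    refine h6.trans ?_
    have h7 : 9 / 128 * J ^ (5 / 4 : ℝ) ≤ t ^ 2 / 2 := by
      have h8 : J ^ (5 / 4 : ℝ) ≤ (L ^ (9 / 10 : ℝ)) ^ 2 := by
        calc J ^ (5 / 4 : ℝ) ≤ J ^ (9 / 5 : ℝ) :=
              Real.rpow_le_rpow_of_exponent_le (by linarith) (by norm_num)
          _ = (J ^ (9 / 10 : ℝ)) ^ 2 := by
              rw [← Real.rpow_natCast, ← Real.rpow_mul hJp.le]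
              norm_num
          _ ≤ (L ^ (9 / 10 : ℝ)) ^ 2 := pow_le_pow_left₀ hJ9p.le hL9 2
      rw [ht]
      nlinarith
    have hJ54 : 0 < J ^ (5 / 4 : ℝ) := Real.rpow_pos_of_pos hJp _
    calc 2 / (t ^ 2 / 2) ≤ 2 / (9 / 128 * J ^ (5 / 4 : ℝ)) :=
          div_le_div_of_nonneg_left (by norm_num) (by positivity) h7
      _ ≤ 32 * J ^ (-(5 / 4) : ℝ) := by
          rw [Real.rpow_neg hJp.le, div_le_iff₀ (by positivity)]
          have : 32 * (J ^ (5 / 4 : ℝ))⁻¹ * (9 / 128 * J ^ (5 / 4 : ℝ)) = 9 / 4 := by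
            field_simp
            norm_num
          rw [this]
          norm_num
  · have hlz1p : 0 < Real.log z1 := Real.log_pos (by
      have : (7 : ℝ) ≤ z1 := by exact_mod_cast hz1two
      linarith)
    have hlzsp : 0 < Real.log zs := lt_of_lt_of_le (by positivity) hlogzs
    have hlzbp : 0 < Real.log zb := lt_of_lt_of_le (by positivity) hlogzb
    have g1 : Real.log c + 9 / 10 * Real.log J ≤ Real.log (Real.log zs) := by
      have := Real.log_le_log (by positivity) hlogzs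
      rw [Real.log_mul hc.ne' hJ9p.ne', Real.log_rpow hJp] at this
      exact this
    have g2 : Real.log c + Real.log J ≤ Real.log (Real.log zb) := by
      have := Real.log_le_log (by positivity) hlogzb
      rw [Real.log_mul hc.ne' hJp.ne'] at this
      exact this
    have g3 : Real.log (Real.log z1) ≤ Real.log 4 + 2 / 15 * Real.log J := by
      have h1 := Real.log_le_log hlz1p hlogz1
      rw [Real.log_mul (by norm_num) hlogJ.ne'] at h1
      have h2 := Real.log_le_log hlogJ e5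
      rw [Real.log_rpow hJp] at h2
      linarith
    unfold LL
    rw [Real.log_div hlzsp.ne' hlz1p.ne', Real.log_div hlzbp.ne' hlz1p.ne']
    linarith

/-! ### Counting -/

theorem bivb_class (x r a : ℕ) (T : Finset ℕ) (hT : ∀ k ∈ T, k ≤ x ∧ k % r = a) :
    (T.card : ℝ) ≤ x / r + 1 := by
  have h1 : T.card ≤ (range (x / r + 1)).card := by
    refine card_le_card_of_injOn (fun k => k / r) ?_ ?_
    · intro k hk
      have hk' : k ∈ T := hk
      have := Nat.div_le_div_right (c := r) (hT k hk').1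
      exact mem_coe.mpr (mem_range.mpr (Nat.lt_succ_of_le this))
    · intro k hk k' hk' h
      have e1 := Nat.div_add_mod k r
      have e2 := Nat.div_add_mod k' r
      have hk1 : k ∈ T := hk
      have hk2 : k' ∈ T := hk'
      rw [(hT k hk1).2] at e1
      rw [(hT k' hk2).2] at e2
      change k / r = k' / r at h
      rw [h] at e1
      omega
  rw [card_range] at h1
  have h2 : (T.card : ℝ) ≤ ((x / r + 1 : ℕ) : ℝ) := by exact_mod_cast h1
  refine h2.trans ?_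
  push_cast
  have := @Nat.cast_div_le ℝ _ _ _ x r
  linarith

theorem bivb_fib (C₀ : ℝ) (lam r : ℕ)
    (hRHO : ∀ r : ℕ, Odd r → ∀ R : Finset ℕ,
      (∀ a ∈ R, a < r ∧ ((r : ℤ) ∣ (a : ℤ) ^ 2 - a + lam)) → (R.card : ℝ) ≤ C₀ * (wt lam r : ℝ))
    (hC₀ : 0 < C₀) (hW : ST_WNN) (hr : 1 ≤ r)
    (T : Finset ℕ) (B : ℝ) (hB : 0 ≤ B) (h1 : T.Nonempty → Odd r)
    (h2 : ∀ k ∈ T, (r : ℤ) ∣ (k : ℤ) ^ 2 - k + lam)
    (h3 : ∀ a, ((T.filter (fun k => k % r = a)).card : ℝ) ≤ B) :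
    (T.card : ℝ) ≤ C₀ * (wt lam r : ℝ) * B := by
  have hwt : (0 : ℝ) ≤ (wt lam r : ℝ) := by exact_mod_cast hW lam r
  rcases T.eq_empty_or_nonempty with hT | hT
  · rw [hT, card_empty, Nat.cast_zero]
    positivity
  have hcard : ((T.image (fun k => k % r)).card : ℝ) ≤ C₀ * (wt lam r : ℝ) := by
    refine hRHO r (h1 hT) _ ?_
    intro a ha
    obtain ⟨k, hk, rfl⟩ := mem_image.mp ha
    refine ⟨Nat.mod_lt _ hr, ?_⟩
    have e1 : (k : ℤ) = r * ((k / r : ℕ) : ℤ) + ((k % r : ℕ) : ℤ) := by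
      exact_mod_cast (Nat.div_add_mod k r).symm
    have e2 : ((k % r : ℕ) : ℤ) ^ 2 - ((k % r : ℕ) : ℤ) + lam =
        ((k : ℤ) ^ 2 - k + lam) - r * (((k / r : ℕ) : ℤ) * ((k : ℤ) + ((k % r : ℕ) : ℤ) - 1)) := by
      have e3 : ((k % r : ℕ) : ℤ) = (k : ℤ) - r * ((k / r : ℕ) : ℤ) := by linarith
      rw [e3]
      ring
    rw [e2]
    exact dvd_sub (h2 k hk) (dvd_mul_right _ _)
  have hsum : (T.card : ℝ) = ∑ a ∈ T.image (fun k => k % r),
      ((T.filter (fun k => k % r = a)).card : ℝ) := by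
    have := card_eq_sum_card_image (fun k => k % r) T
    exact_mod_cast this
  rw [hsum]
  calc ∑ a ∈ T.image (fun k => k % r), ((T.filter (fun k => k % r = a)).card : ℝ)
      ≤ ∑ a ∈ T.image (fun k => k % r), B := sum_le_sum fun a _ => h3 a
    _ = ((T.image (fun k => k % r)).card : ℝ) * B := by rw [sum_const, nsmul_eq_mul]
    _ ≤ C₀ * (wt lam r : ℝ) * B := mul_le_mul_of_nonneg_right hcard hB

/-! ### Sums over primes -/

theorem bivb_jac (lam r p : ℕ) (τ : ℤ) (hτ : τ = 1 ∨ τ = -1) (hlam : 1 ≤ lam) (hp : p.Prime)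
    (hpl : lam < p) (h : ¬ p ∣ r) : jacobiSym (τ * lam * r) p = 1 ∨
      jacobiSym (τ * lam * r) p = -1 := by
  have hcop : Int.gcd (τ * lam * r) p = 1 := by
    have h1 : Nat.Coprime (Int.natAbs (τ * lam * r)) p := by
      have h2 : Int.natAbs (τ * lam * r) = lam * r := by
        rw [Int.natAbs_mul, Int.natAbs_mul]
        rcases hτ with h | h <;> rw [h] <;> simp
      rw [h2]
      refine Nat.Coprime.mul_left ?_ ?_
      · exact (Nat.coprime_of_lt_prime (by omega) hpl hp).symm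
      · exact (hp.coprime_iff_not_dvd.mpr h).symm
    rw [Int.gcd_eq_natAbs, Int.natAbs_natCast]
    exact h1
  exact jacobiSym.eq_one_or_neg_one hcop

theorem bivb_sumP (lam r z1 zs zb : ℕ) (τ : ℤ) (hτ : τ = 1 ∨ τ = -1) (hlam : 1 ≤ lam)
    (hz1 : lam < z1) (hzz : zs ≤ zb) (C₁ : ℝ)
    (hM : |∑ p ∈ PP z1 zs, 1 / (p : ℝ) - LL z1 zs| ≤ C₁) (hF : FF lam τ z1 zs r ≤ 1)
    (hD : ∑ p ∈ (PP z1 zb).filter (fun p => p ∣ r), 1 / (p : ℝ) ≤ 1) :
    1 / 2 * LL z1 zs - (C₁ + 2) / 2 ≤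
      ∑ p ∈ (PP z1 zs).filter (fun p : ℕ => jacobiSym (τ * lam * r) p = -1), 1 / (p : ℝ) := by
  have h1 : ∑ p ∈ PP z1 zs, (1 / (p : ℝ) - (jacobiSym (τ * lam * r) p : ℝ) / p -
      (if p ∣ r then 1 / (p : ℝ) else 0)) / 2 ≤
      ∑ p ∈ (PP z1 zs).filter (fun p : ℕ => jacobiSym (τ * lam * r) p = -1), 1 / (p : ℝ) := by
    rw [sum_filter]
    refine sum_le_sum fun p hp => ?_
    unfold PP at hp
    rw [mem_filter, mem_Ioc] at hp
    obtain ⟨⟨hp1, -⟩, hpp⟩ := hp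
    have hp0 : (0 : ℝ) < 1 / (p : ℝ) := by
      have : (0 : ℝ) < p := by exact_mod_cast hpp.pos
      positivity
    by_cases hd : p ∣ r
    · have hj : jacobiSym (τ * lam * r) p = 0 := by
        have : NeZero p := ⟨hpp.ne_zero⟩
        rw [jacobiSym.eq_zero_iff_not_coprime]
        intro hg
        have h2 : (p : ℤ) ∣ τ * lam * r := Dvd.dvd.mul_left (by exact_mod_cast hd) _
        have h3 : p ∣ Int.gcd (τ * lam * r) p :=
          Int.dvd_gcd h2 (dvd_refl _) |> fun h => by exact_mod_cast h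
        rw [hg] at h3
        exact hpp.one_lt.ne' (Nat.dvd_one.mp h3)
      rw [hj, if_pos hd, if_neg (by norm_num)]
      simp
    · rw [if_neg hd]
      rcases bivb_jac lam r p τ hτ hlam hpp (hz1.trans hp1) hd with hj | hj
      · rw [hj, if_neg (by norm_num)]
        simp
      · rw [hj, if_pos rfl]
        push_cast
        have : (1 / (p : ℝ) - -1 / p - 0) / 2 = 1 / p := by ring
        rw [this]
  have h2 : ∑ p ∈ PP z1 zs, (1 / (p : ℝ) - (jacobiSym (τ * lam * r) p : ℝ) / p -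
      (if p ∣ r then 1 / (p : ℝ) else 0)) / 2 =
      (∑ p ∈ PP z1 zs, 1 / (p : ℝ) - FF lam τ z1 zs r -
        ∑ p ∈ (PP z1 zs).filter (fun p => p ∣ r), 1 / (p : ℝ)) / 2 := by
    rw [← sum_div, sum_sub_distrib, sum_sub_distrib, sum_filter]
    rfl
  have h3 : ∑ p ∈ (PP z1 zs).filter (fun p => p ∣ r), 1 / (p : ℝ) ≤
      ∑ p ∈ (PP z1 zb).filter (fun p => p ∣ r), 1 / (p : ℝ) := by
    refine sum_le_sum_of_subset_of_nonneg ?_ fun p _ _ => by positivity
    refine filter_subset_filter _ ?_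
    unfold PP
    exact filter_subset_filter _ (Ioc_subset_Ioc_right hzz)
  have h4 := (abs_le.mp hM).1
  linarith

theorem bivb_sumP' (lam r z1 zb : ℕ) (C₂ : ℝ)
    (hM : LL z1 zb - C₂ ≤ ∑ p ∈ PP z1 zb, (1 + (jacobiSym (1 - 4 * (lam : ℤ)) p : ℝ)) / p)
    (hD : ∑ p ∈ (PP z1 zb).filter (fun p => p ∣ r), 1 / (p : ℝ) ≤ 1) :
    LL z1 zb - C₂ - 2 ≤ ∑ p ∈ (PP z1 zb).filter (fun p => ¬ p ∣ r),
      (1 + (jacobiSym (1 - 4 * (lam : ℤ)) p : ℝ)) / p := by
  have h1 : ∑ p ∈ PP z1 zb, (1 + (jacobiSym (1 - 4 * (lam : ℤ)) p : ℝ)) / p ≤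
      ∑ p ∈ (PP z1 zb).filter (fun p => ¬ p ∣ r),
        (1 + (jacobiSym (1 - 4 * (lam : ℤ)) p : ℝ)) / p +
      2 * ∑ p ∈ (PP z1 zb).filter (fun p => p ∣ r), 1 / (p : ℝ) := by
    rw [← sum_filter_add_sum_filter_not (PP z1 zb) (fun p => ¬ p ∣ r), mul_sum]
    refine add_le_add le_rfl ?_
    have h2 : (PP z1 zb).filter (fun p => ¬ ¬ p ∣ r) = (PP z1 zb).filter (fun p => p ∣ r) :=
      filter_congr fun p _ => not_not
    rw [h2]
    refine sum_le_sum fun p _ => ?_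
    have h3 : (jacobiSym (1 - 4 * (lam : ℤ)) p : ℝ) ≤ 1 := by
      rcases jacobiSym.trichotomy (1 - 4 * (lam : ℤ)) p with h | h | h <;> rw [h] <;> norm_num
    rw [mul_one_div]
    exact div_le_div_of_nonneg_right (by linarith) (Nat.cast_nonneg p)
  linarith

/-! ### One root class -/

theorem bivb_one (lam b x R w z1 zs zb r : ℕ) (C₁ C₂ C₃ K J : ℝ) (hlam : 1 ≤ lam)
    (hC₃ : 0 < C₃) (hJ : 0 < J) (hR : 1 ≤ R) (hRr : R < r)
    (hSL : ∀ (x Q a z1 z w : ℕ) (P P' : Finset ℕ), 8 * lam + 7 ≤ z1 → z1 ≤ z → 1 ≤ Q →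
      z ^ b * Q ≤ x → w * z1 * Q ≤ x → P ⊆ PP z1 z → P' ⊆ PP z1 z → (∀ p ∈ P, ¬ p ∣ Q) →
      (∀ p ∈ P', ¬ p ∣ Q) →
      ∀ S : Finset ℕ, (∀ k ∈ S, k ≤ x ∧ k % Q = a % Q ∧ lam < k ∧ Gd lam w k ∧
        (∀ p ∈ P, (k - lam).factorization p ≠ 1) ∧ ∀ p ∈ P', ¬ FD lam p k) →
      (S.card : ℝ) ≤ C₃ * ((x : ℝ) / Q) * (Real.exp (-∑ p ∈ P, 1 / (p : ℝ) -
        ∑ p ∈ P', (1 + (jacobiSym (1 - 4 * (lam : ℤ)) p : ℝ)) / p) + 1 / (z1 : ℝ)))
    (hMER : |∑ p ∈ PP z1 zs, 1 / (p : ℝ) - LL z1 zs| ≤ C₁)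
    (hDEN : LL z1 zb - C₂ ≤ ∑ p ∈ PP z1 zb, (1 + (jacobiSym (1 - 4 * (lam : ℤ)) p : ℝ)) / p)
    (hz1 : 8 * lam + 7 ≤ z1) (hz2 : z1 ≤ zs) (hz3 : zs ≤ zb)
    (hz5 : zb ^ b * r ≤ x) (hz6 : w * z1 * r ≤ x)
    (hz7 : 1 / (z1 : ℝ) ≤ J ^ (-(5 / 4) : ℝ))
    (hz8 : -(1 / 2) * LL z1 zs - LL z1 zb ≤ K - 5 / 4 * Real.log J)
    (hex : ¬ Exc lam z1 zs zb r) (T : Finset ℕ) (a : ℕ)
    (hT : ∀ k ∈ T, k ≤ x ∧ k % r = a ∧ lam < k ∧ Gd lam w k ∧
      (∃ τ : ℤ, (τ = 1 ∨ τ = -1) ∧ ∀ p : ℕ, p.Prime → p ≤ zb → 2 * lam < p →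
        (k - lam).factorization p = 1 → jacobiSym (τ * lam * r) p = 1) ∧
      ∀ l : ℕ, l.Prime → l ≤ zb → lam < l → ¬ l ∣ r → ¬ FD lam l k) :
    (T.card : ℝ) ≤ 2 * (C₃ * (Real.exp ((C₁ + 2) / 2 + C₂ + 2 + K) + 1)) * ((x : ℝ) / R) *
      J ^ (-(5 / 4) : ℝ) := by
  classical
  unfold Exc at hex
  push Not at hex
  obtain ⟨hx1, hx2, hx3⟩ := hex
  have hr0 : 1 ≤ r := by omega
  have hR0 : (0 : ℝ) < R := by exact_mod_cast hR
  have hJ54 : 0 < J ^ (-(5 / 4) : ℝ) := Real.rpow_pos_of_pos hJ _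
  have key : ∀ τ : ℤ, (τ = 1 ∨ τ = -1) → ∀ U : Finset ℕ, (∀ k ∈ U, k ∈ T ∧
      ∀ p : ℕ, p.Prime → p ≤ zb → 2 * lam < p →
        (k - lam).factorization p = 1 → jacobiSym (τ * lam * r) p = 1) →
      (U.card : ℝ) ≤ (C₃ * (Real.exp ((C₁ + 2) / 2 + C₂ + 2 + K) + 1)) * ((x : ℝ) / R) *
        J ^ (-(5 / 4) : ℝ) := by
    intro τ hτ U hU
    rcases U.eq_empty_or_nonempty with hUe | hUn
    · rw [hUe, card_empty, Nat.cast_zero]
      positivity
    obtain ⟨k₀, hk₀⟩ := hUn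
    have ha : a % r = a := by
      have := (hT k₀ (hU k₀ hk₀).1).2.1
      rw [← this]
      exact Nat.mod_mod _ _
    have hF : FF lam τ z1 zs r ≤ 1 := by
      rcases hτ with h | h <;> rw [h]
      · exact hx1
      · exact hx2
    have h := hSL x r a z1 zb w
      ((PP z1 zs).filter (fun p : ℕ => jacobiSym (τ * lam * r) p = -1))
      ((PP z1 zb).filter (fun p => ¬ p ∣ r)) hz1 (hz2.trans hz3) hr0 hz5 hz6 ?_ ?_ ?_ ?_ U ?_
    · refine h.trans ?_
      have h1 := bivb_sumP lam r z1 zs zb τ hτ hlam (by omega) hz3 C₁ hMER hF hx3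
      have h2 := bivb_sumP' lam r z1 zb C₂ hDEN hx3
      have h3 : Real.exp (-∑ p ∈ (PP z1 zs).filter (fun p : ℕ => jacobiSym (τ * lam * r) p = -1),
          1 / (p : ℝ) - ∑ p ∈ (PP z1 zb).filter (fun p => ¬ p ∣ r),
            (1 + (jacobiSym (1 - 4 * (lam : ℤ)) p : ℝ)) / p) ≤
          Real.exp ((C₁ + 2) / 2 + C₂ + 2 + K) * J ^ (-(5 / 4) : ℝ) := by
        rw [Real.rpow_def_of_pos hJ, ← Real.exp_add]
        refine Real.exp_le_exp.mpr ?_
        linarith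
      have h4 : (x : ℝ) / r ≤ (x : ℝ) / R := by
        refine div_le_div_of_nonneg_left (Nat.cast_nonneg x) hR0 ?_
        exact_mod_cast hRr.le
      have h5 : (0 : ℝ) ≤ (x : ℝ) / r := by positivity
      calc C₃ * ((x : ℝ) / r) * (Real.exp (-∑ p ∈ (PP z1 zs).filter
              (fun p : ℕ => jacobiSym (τ * lam * r) p = -1),
            1 / (p : ℝ) - ∑ p ∈ (PP z1 zb).filter (fun p => ¬ p ∣ r),
              (1 + (jacobiSym (1 - 4 * (lam : ℤ)) p : ℝ)) / p) + 1 / (z1 : ℝ))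
          ≤ C₃ * ((x : ℝ) / r) * (Real.exp ((C₁ + 2) / 2 + C₂ + 2 + K) * J ^ (-(5 / 4) : ℝ) +
            J ^ (-(5 / 4) : ℝ)) := by
            refine mul_le_mul_of_nonneg_left (add_le_add h3 hz7) ?_
            positivity
        _ ≤ C₃ * ((x : ℝ) / R) * (Real.exp ((C₁ + 2) / 2 + C₂ + 2 + K) * J ^ (-(5 / 4) : ℝ) +
            J ^ (-(5 / 4) : ℝ)) := by
            refine mul_le_mul_of_nonneg_right (mul_le_mul_of_nonneg_left h4 hC₃.le) ?_
            positivity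
        _ = (C₃ * (Real.exp ((C₁ + 2) / 2 + C₂ + 2 + K) + 1)) * ((x : ℝ) / R) *
            J ^ (-(5 / 4) : ℝ) := by ring
    · refine (filter_subset _ _).trans ?_
      unfold PP
      exact filter_subset_filter _ (Ioc_subset_Ioc_right hz3)
    · exact filter_subset _ _
    · intro p hp hdvd
      rw [mem_filter] at hp
      obtain ⟨hp1, hp2⟩ := hp
      unfold PP at hp1
      rw [mem_filter] at hp1
      have hpp := hp1.2
      have : NeZero p := ⟨hpp.ne_zero⟩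
      have hz : jacobiSym (τ * lam * r) p = 0 := by
        rw [jacobiSym.eq_zero_iff_not_coprime]
        intro hg
        have h2 : (p : ℤ) ∣ τ * lam * r := Dvd.dvd.mul_left (by exact_mod_cast hdvd) _
        have h3 : p ∣ Int.gcd (τ * lam * r) p :=
          Int.dvd_gcd h2 (dvd_refl _) |> fun h => by exact_mod_cast h
        rw [hg] at h3
        exact hpp.one_lt.ne' (Nat.dvd_one.mp h3)
      rw [hz] at hp2
      norm_num at hp2
    · intro p hp
      exact (mem_filter.mp hp).2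
    · intro k hk
      obtain ⟨hkT, hkτ⟩ := hU k hk
      obtain ⟨g1, g2, g3, g4, -, g6⟩ := hT k hkT
      refine ⟨g1, by rw [g2, ha], g3, g4, ?_, ?_⟩
      · intro p hp hfac
        rw [mem_filter] at hp
        obtain ⟨hp1, hp2⟩ := hp
        unfold PP at hp1
        rw [mem_filter, mem_Ioc] at hp1
        have := hkτ p hp1.2 (hp1.1.2.trans hz3) (by omega) hfac
        rw [this] at hp2
        norm_num at hp2
      · intro p hp
        rw [mem_filter] at hp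
        obtain ⟨hp1, hp2⟩ := hp
        unfold PP at hp1
        rw [mem_filter, mem_Ioc] at hp1
        exact g6 p hp1.2 hp1.1.2 (by omega) hp2
  have hsplit : T = T.filter (fun k => ∀ p : ℕ, p.Prime → p ≤ zb → 2 * lam < p →
        (k - lam).factorization p = 1 → jacobiSym ((1 : ℤ) * lam * r) p = 1) ∪
      T.filter (fun k => ∀ p : ℕ, p.Prime → p ≤ zb → 2 * lam < p →
        (k - lam).factorization p = 1 → jacobiSym ((-1 : ℤ) * lam * r) p = 1) := by
    ext k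
    rw [mem_union, mem_filter, mem_filter]
    constructor
    · intro hk
      obtain ⟨τ, hτ, hh⟩ := (hT k hk).2.2.2.2.1
      rcases hτ with h | h
      · rw [h] at hh
        exact Or.inl ⟨hk, hh⟩
      · rw [h] at hh
        exact Or.inr ⟨hk, hh⟩
    · rintro (h | h)
      · exact h.1
      · exact h.1
  have hc : (T.card : ℝ) ≤
      ((T.filter (fun k => ∀ p : ℕ, p.Prime → p ≤ zb → 2 * lam < p →
        (k - lam).factorization p = 1 → jacobiSym ((1 : ℤ) * lam * r) p = 1)).card : ℝ) +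
      ((T.filter (fun k => ∀ p : ℕ, p.Prime → p ≤ zb → 2 * lam < p →
        (k - lam).factorization p = 1 → jacobiSym ((-1 : ℤ) * lam * r) p = 1)).card : ℝ) := by
    have h1 : T.card ≤
      (T.filter (fun k => ∀ p : ℕ, p.Prime → p ≤ zb → 2 * lam < p →
        (k - lam).factorization p = 1 → jacobiSym ((1 : ℤ) * lam * r) p = 1)).card +
      (T.filter (fun k => ∀ p : ℕ, p.Prime → p ≤ zb → 2 * lam < p →
        (k - lam).factorization p = 1 → jacobiSym ((-1 : ℤ) * lam * r) p = 1)).card := by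
      conv_lhs => rw [hsplit]
      exact card_union_le _ _
    exact_mod_cast h1
  have k1 := key 1 (Or.inl rfl) (T.filter (fun k => ∀ p : ℕ, p.Prime → p ≤ zb → 2 * lam < p →
        (k - lam).factorization p = 1 → jacobiSym ((1 : ℤ) * lam * r) p = 1))
    (fun k hk => ⟨(mem_filter.mp hk).1, (mem_filter.mp hk).2⟩)
  have k2 := key (-1) (Or.inr rfl) (T.filter (fun k => ∀ p : ℕ, p.Prime → p ≤ zb → 2 * lam < p →
        (k - lam).factorization p = 1 → jacobiSym ((-1 : ℤ) * lam * r) p = 1))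
    (fun k hk => ⟨(mem_filter.mp hk).1, (mem_filter.mp hk).2⟩)
  calc (T.card : ℝ) ≤ _ := hc
    _ ≤ _ := add_le_add k1 k2
    _ = 2 * (C₃ * (Real.exp ((C₁ + 2) / 2 + C₂ + 2 + K) + 1)) * ((x : ℝ) / R) *
      J ^ (-(5 / 4) : ℝ) := by ring

/-! ### The theorem -/

theorem st_BIVb (hMER : Pool.Agent.Helper17.SO.ST_MER) (hDENA : Pool.Agent.Helper17.SO.ST_DENA)
    (hSL : ST_SL) (hWNN : ST_WNN) (hWSUM : ST_WSUM) (hRHO : ST_RHO) (hEXR : ST_EXR)
    (hRED : ST_RED) : ST_BIVb := by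
  classical
  intro lam hlam
  obtain ⟨C₁, hC₁, hM⟩ := hMER
  obtain ⟨C₂, hC₂, hD⟩ := hDENA lam hlam
  obtain ⟨b, C₃, hb, hC₃, hS⟩ := hSL lam hlam
  obtain ⟨C₄, hC₄, hWS⟩ := hWSUM lam hlam
  obtain ⟨C₅, hC₅, hRh⟩ := hRHO lam hlam
  obtain ⟨C₆, hC₆, hEx⟩ := hEXR lam hlam
  obtain ⟨J₀, K, hJ₀, hpar⟩ := bivb_par lam b hb
  set E : ℝ := 2 * (C₃ * (Real.exp ((C₁ + 2) / 2 + C₂ + 2 + K) + 1)) with hE
  have hE0 : 0 < E := by
    rw [hE]
    positivity
  set Cm : ℝ := 2 * C₅ * C₆ * 33 + 2 * C₅ * C₄ * E with hCm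
  have hCm0 : 0 < Cm := by
    rw [hCm]
    positivity
  have hJ0p : 0 < J₀ := by linarith
  refine ⟨max Cm (2 * J₀ ^ (5 / 4 : ℝ)), lt_max_of_lt_left hCm0, ?_⟩
  intro x R w hx hw hRL hRU S hS'
  have hx0 : (0 : ℝ) < x := by
    have : 0 < x := by omega
    exact_mod_cast this
  have hR0 : (0 : ℝ) < R := lt_of_lt_of_le (by positivity) hRL
  have hR1 : 1 ≤ R := by
    have : 0 < R := by exact_mod_cast hR0
    omega
  set L : ℝ := Real.log x with hL
  set J : ℝ := Real.log ((x : ℝ) / R) with hJ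
  have hLbig : 1 < L := by
    rw [hL, Real.lt_log_iff_exp_lt hx0]
    have h16 : (16 : ℝ) ≤ x := by exact_mod_cast hx
    have := Real.exp_one_lt_d9
    linarith
  have hJp : 0 < J := by
    rw [hJ]
    refine Real.log_pos ?_
    have h1 : 1 < Real.sqrt L := by
      rw [Real.lt_sqrt (by norm_num)]
      linarith
    have h2 : 0 < Real.sqrt L := by linarith
    rw [le_div_iff₀ h2] at hRU
    rw [lt_div_iff₀ hR0]
    nlinarith
  have hJ54 : 0 < J ^ (-(5 / 4) : ℝ) := Real.rpow_pos_of_pos hJp _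
  by_cases hJJ : J < J₀
  · -- trivial bound
    have h1 : (S.card : ℝ) ≤ 2 * x := by
      have h2 : S.card ≤ (range (x + 1)).card := by
        refine card_le_card fun k hk => ?_
        exact mem_range.mpr (Nat.lt_succ_of_le (hS' k hk).1)
      rw [card_range] at h2
      have h3 : (S.card : ℝ) ≤ ((x + 1 : ℕ) : ℝ) := by exact_mod_cast h2
      push_cast at h3
      have h16 : (16 : ℝ) ≤ x := by exact_mod_cast hx
      linarith
    have h2 : J₀ ^ (-(5 / 4) : ℝ) ≤ J ^ (-(5 / 4) : ℝ) := by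
      refine Real.rpow_le_rpow_of_nonpos hJp hJJ.le (by norm_num)
    have h3 : J₀ ^ (5 / 4 : ℝ) * J₀ ^ (-(5 / 4) : ℝ) = 1 := by
      rw [← Real.rpow_add hJ0p]
      norm_num
    calc (S.card : ℝ) ≤ 2 * x := h1
      _ = 2 * (J₀ ^ (5 / 4 : ℝ) * J₀ ^ (-(5 / 4) : ℝ)) * x := by rw [h3]; ring
      _ = (2 * J₀ ^ (5 / 4 : ℝ)) * x * J₀ ^ (-(5 / 4) : ℝ) := by ring
      _ ≤ (2 * J₀ ^ (5 / 4 : ℝ)) * x * J ^ (-(5 / 4) : ℝ) := by
          refine mul_le_mul_of_nonneg_left h2 ?_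
          positivity
      _ ≤ max Cm (2 * J₀ ^ (5 / 4 : ℝ)) * x * J ^ (-(5 / 4) : ℝ) := by
          refine mul_le_mul_of_nonneg_right ?_ hJ54.le
          exact mul_le_mul_of_nonneg_right (le_max_right _ _) hx0.le
  have hJJ' : J₀ ≤ J := not_lt.mp hJJ
  obtain ⟨h2R, z1, zs, zb, p1, p2, p3, p4, p5, p6, p7, p8⟩ :=
    hpar x R w J L hL hJ hJJ' (by omega) hR1 hw hRL hRU
  have hz12 : 2 ≤ z1 := by omega
  -- the sets for the single `r`
  set Sr : ℕ → Finset ℕ := fun r => S.filter (fun k => ∃ q : ℕ, ArithF lam q k ∧ x < q ∧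
    lam * (q * r) + k = k * k + lam) with hSr
  have hprop : ∀ r k : ℕ, k ∈ Sr r → k ≤ x ∧ Odd r ∧ ((r : ℤ) ∣ (k : ℤ) ^ 2 - k + lam) ∧
      lam < k ∧ Gd lam w k ∧
      (∃ τ : ℤ, (τ = 1 ∨ τ = -1) ∧ ∀ p : ℕ, p.Prime → p ≤ zb → 2 * lam < p →
        (k - lam).factorization p = 1 → jacobiSym (τ * lam * r) p = 1) ∧
      ∀ l : ℕ, l.Prime → l ≤ zb → lam < l → ¬ l ∣ r → ¬ FD lam l k := by
    intro r k hk
    rw [hSr] at hk
    obtain ⟨hkS, q, hA, hxq, heq⟩ := mem_filter.mp hk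
    have hlk : lam < k := by
      obtain ⟨v, n, h1, h2, -⟩ := hA
      omega
    obtain ⟨r', e1, e2, e3, e4, e5⟩ := hRED lam q k zb (q * r) hlam hlk hA (by omega) heq
    have hrr : r = r' := Nat.eq_of_mul_eq_mul_left (by omega) e1
    subst hrr
    exact ⟨(hS' k hkS).1, e2, e3, hlk, (hS' k hkS).2.1, e4, e5⟩
  have hcover : (S.card : ℝ) ≤ ∑ r ∈ Ioc R (2 * R), ((Sr r).card : ℝ) := by
    have h1 : S ⊆ (Ioc R (2 * R)).biUnion Sr := by
      intro k hk
      obtain ⟨-, -, q, r, hA, hxq, heq, hr1, hr2⟩ := hS' k hk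
      refine mem_biUnion.mpr ⟨r, mem_Ioc.mpr ⟨hr1, hr2⟩, ?_⟩
      rw [hSr]
      exact mem_filter.mpr ⟨hk, q, hA, hxq, heq⟩
    have h2 := (card_le_card h1).trans card_biUnion_le
    exact_mod_cast h2
  -- exceptional
  have hexc : ∀ r ∈ Ioc R (2 * R), ((Sr r).card : ℝ) ≤ C₅ * (wt lam r : ℝ) * (2 * (x / R)) := by
    intro r hr
    obtain ⟨hr1, hr2⟩ := mem_Ioc.mp hr
    refine bivb_fib C₅ lam r hRh hC₅ hWNN (by omega) (Sr r) _ (by positivity) ?_ ?_ ?_
    · rintro ⟨k, hk⟩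
      exact (hprop r k hk).2.1
    · intro k hk
      exact (hprop r k hk).2.2.1
    · intro a
      have h1 := bivb_class x r a ((Sr r).filter (fun k => k % r = a)) (fun k hk =>
        ⟨(hprop r k (mem_filter.mp hk).1).1, (mem_filter.mp hk).2⟩)
      refine h1.trans ?_
      have hr0 : (0 : ℝ) < r := by
        have : 0 < r := by omega
        exact_mod_cast this
      have h2 : (1 : ℝ) ≤ (x : ℝ) / r := by
        rw [one_le_div hr0]
        exact_mod_cast hr2.trans h2R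
      have h3 : (x : ℝ) / r ≤ (x : ℝ) / R := by
        refine div_le_div_of_nonneg_left hx0.le hR0 ?_
        exact_mod_cast hr1.le
      linarith
  have hnon : ∀ r ∈ Ioc R (2 * R), ¬ Exc lam z1 zs zb r →
      ((Sr r).card : ℝ) ≤ C₅ * (wt lam r : ℝ) * (E * ((x : ℝ) / R) * J ^ (-(5 / 4) : ℝ)) := by
    intro r hr hne
    obtain ⟨hr1, hr2⟩ := mem_Ioc.mp hr
    refine bivb_fib C₅ lam r hRh hC₅ hWNN (by omega) (Sr r) _ (by positivity) ?_ ?_ ?_
    · rintro ⟨k, hk⟩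
      exact (hprop r k hk).2.1
    · intro k hk
      exact (hprop r k hk).2.2.1
    · intro a
      refine bivb_one lam b x R w z1 zs zb r C₁ C₂ C₃ K J hlam hC₃ hJp hR1 hr1 hS
        (hM z1 zs hz12 p2) (hD z1 zb hz12 (p2.trans p3)) p1 p2 p3 (p5 r hr2).1 (p5 r hr2).2
        p6 p8 hne _ a ?_
      intro k hk
      obtain ⟨hk1, hk2⟩ := mem_filter.mp hk
      obtain ⟨g1, -, -, g4, g5, g6, g7⟩ := hprop r k hk1
      exact ⟨g1, hk2, g4, g5, g6, g7⟩
  -- the sum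
  have hwt : ∀ r, (0 : ℝ) ≤ (wt lam r : ℝ) := fun r => by exact_mod_cast hWNN lam r
  have hsumE : ∑ r ∈ (Ioc R (2 * R)).filter (fun r => Exc lam z1 zs zb r), ((Sr r).card : ℝ) ≤
      2 * C₅ * C₆ * 33 * x * J ^ (-(5 / 4) : ℝ) := by
    have h1 := hEx R z1 zs zb p1 p2 (p2.trans p3)
      ((Ioc R (2 * R)).filter (fun r => Exc lam z1 zs zb r))
      (fun r hr => ⟨(mem_filter.mp hr).1, (mem_filter.mp hr).2⟩)
    have hsR : 0 < Real.sqrt R := Real.sqrt_pos.mpr hR0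
    calc ∑ r ∈ (Ioc R (2 * R)).filter (fun r => Exc lam z1 zs zb r), ((Sr r).card : ℝ)
        ≤ ∑ r ∈ (Ioc R (2 * R)).filter (fun r => Exc lam z1 zs zb r),
          C₅ * (wt lam r : ℝ) * (2 * (x / R)) :=
          sum_le_sum fun r hr => hexc r (mem_filter.mp hr).1
      _ = 2 * C₅ * (x / R) * ∑ r ∈ (Ioc R (2 * R)).filter (fun r => Exc lam z1 zs zb r),
          (wt lam r : ℝ) := by
          rw [mul_sum]
          exact sum_congr rfl fun r _ => by ring
      _ ≤ 2 * C₅ * (x / R) * (C₆ * ((R : ℝ) / z1 + Real.sqrt R * (zs : ℝ) ^ 2)) := by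
          refine mul_le_mul_of_nonneg_left h1 ?_
          positivity
      _ = 2 * C₅ * C₆ * x * (1 / (z1 : ℝ) + (zs : ℝ) ^ 2 / Real.sqrt R) := by
          have h2 : Real.sqrt R * Real.sqrt R = R := Real.mul_self_sqrt hR0.le
          have h3 : (Real.sqrt R * (zs : ℝ) ^ 2) / R = (zs : ℝ) ^ 2 / Real.sqrt R := by
            rw [div_eq_div_iff hR0.ne' hsR.ne']
            calc Real.sqrt R * (zs : ℝ) ^ 2 * Real.sqrt R
                = (zs : ℝ) ^ 2 * (Real.sqrt R * Real.sqrt R) := by ring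
              _ = (zs : ℝ) ^ 2 * R := by rw [h2]
          have h4 : (x / R) * ((R : ℝ) / z1 + Real.sqrt R * (zs : ℝ) ^ 2) =
              x * (1 / (z1 : ℝ) + (Real.sqrt R * (zs : ℝ) ^ 2) / R) := by
            have hz0 : (z1 : ℝ) ≠ 0 := by
              have : z1 ≠ 0 := by omega
              exact_mod_cast this
            field_simp
          calc 2 * C₅ * (x / R) * (C₆ * ((R : ℝ) / z1 + Real.sqrt R * (zs : ℝ) ^ 2))
              = 2 * C₅ * C₆ * ((x / R) * ((R : ℝ) / z1 + Real.sqrt R * (zs : ℝ) ^ 2)) := by ring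
            _ = 2 * C₅ * C₆ * x * (1 / (z1 : ℝ) + (zs : ℝ) ^ 2 / Real.sqrt R) := by
                rw [h4, h3]
                ring
      _ ≤ 2 * C₅ * C₆ * x * (J ^ (-(5 / 4) : ℝ) + 32 * J ^ (-(5 / 4) : ℝ)) := by
          refine mul_le_mul_of_nonneg_left (add_le_add p6 p7) ?_
          positivity
      _ = 2 * C₅ * C₆ * 33 * x * J ^ (-(5 / 4) : ℝ) := by ring
  have hsumN : ∑ r ∈ (Ioc R (2 * R)).filter (fun r => ¬ Exc lam z1 zs zb r), ((Sr r).card : ℝ) ≤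
      2 * C₅ * C₄ * E * x * J ^ (-(5 / 4) : ℝ) := by
    have h1 := hWS (2 * R)
    have h2 : ∑ r ∈ (Ioc R (2 * R)).filter (fun r => ¬ Exc lam z1 zs zb r), (wt lam r : ℝ) ≤
        ∑ r ∈ Ioc 0 (2 * R), (wt lam r : ℝ) := by
      refine sum_le_sum_of_subset_of_nonneg ?_ fun r _ _ => hwt r
      refine (filter_subset _ _).trans ?_
      exact Ioc_subset_Ioc_left (Nat.zero_le R)
    calc ∑ r ∈ (Ioc R (2 * R)).filter (fun r => ¬ Exc lam z1 zs zb r), ((Sr r).card : ℝ)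
        ≤ ∑ r ∈ (Ioc R (2 * R)).filter (fun r => ¬ Exc lam z1 zs zb r),
          C₅ * (wt lam r : ℝ) * (E * ((x : ℝ) / R) * J ^ (-(5 / 4) : ℝ)) :=
          sum_le_sum fun r hr => hnon r (mem_filter.mp hr).1 (mem_filter.mp hr).2
      _ = C₅ * (E * ((x : ℝ) / R) * J ^ (-(5 / 4) : ℝ)) *
          ∑ r ∈ (Ioc R (2 * R)).filter (fun r => ¬ Exc lam z1 zs zb r), (wt lam r : ℝ) := by
          rw [mul_sum]
          exact sum_congr rfl fun r _ => by ring
      _ ≤ C₅ * (E * ((x : ℝ) / R) * J ^ (-(5 / 4) : ℝ)) * (C₄ * ((2 * R : ℕ) : ℝ)) := by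
          refine mul_le_mul_of_nonneg_left (h2.trans h1) ?_
          positivity
      _ = 2 * C₅ * C₄ * E * x * J ^ (-(5 / 4) : ℝ) := by
          push_cast
          field_simp
  have hfin : (S.card : ℝ) ≤ Cm * x * J ^ (-(5 / 4) : ℝ) := by
    calc (S.card : ℝ) ≤ ∑ r ∈ Ioc R (2 * R), ((Sr r).card : ℝ) := hcover
      _ = ∑ r ∈ (Ioc R (2 * R)).filter (fun r => Exc lam z1 zs zb r), ((Sr r).card : ℝ) +
          ∑ r ∈ (Ioc R (2 * R)).filter (fun r => ¬ Exc lam z1 zs zb r), ((Sr r).card : ℝ) :=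
          (sum_filter_add_sum_filter_not _ _ _).symm
      _ ≤ 2 * C₅ * C₆ * 33 * x * J ^ (-(5 / 4) : ℝ) + 2 * C₅ * C₄ * E * x * J ^ (-(5 / 4) : ℝ) :=
          add_le_add hsumE hsumN
      _ = Cm * x * J ^ (-(5 / 4) : ℝ) := by
          rw [hCm]
          ring
  refine hfin.trans ?_
  refine mul_le_mul_of_nonneg_right ?_ hJ54.le
  exact mul_le_mul_of_nonneg_right (le_max_left _ _) hx0.le

end Pool.Agent.Helper17.FP
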